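import Mathlib
import Pool.Agent.helper35.DR.SpecC

/-!
# Project dr, module CFD: the count in the Clifford correspondence
-/

set_option autoImplicit false

namespace Pool.Agent.DR

open Pool.Agent.helper58.DC Pool.Agent.DI

/-- transfer of defects -/
theorem CFD_def {Γ : Type} [Group Γ] [Finite Γ] (p : ℕ) [Fact p.Prime] (L S : Subgroup Γ)
    (φ φ₀ : Γ → ℂ) (h : φ 1 * Nat.card S = Nat.card L * φ₀ 1)
    (h1 : ∃ n : ℕ, 0 < n ∧ φ 1 = n ∧ n ∣ Nat.card L)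
    (h2 : ∃ n : ℕ, 0 < n ∧ φ₀ 1 = n ∧ n ∣ Nat.card S) (D : ℤ) :
    Defect p L φ D ↔ Defect p S φ₀ D := by
  obtain ⟨n, hn, hn1, -⟩ := h1
  obtain ⟨m, hm, hm1, -⟩ := h2
  have hL : Nat.card L ≠ 0 := Nat.card_pos.ne'
  have hS : Nat.card S ≠ 0 := Nat.card_pos.ne'
  have e : n * Nat.card S = Nat.card L * m := by
    rw [hn1, hm1] at h
    exact_mod_cast h
  have v : padicValNat p n + padicValNat p (Nat.card S) =
      padicValNat p (Nat.card L) + padicValNat p m := by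
    rw [← padicValNat.mul hn.ne' hS, ← padicValNat.mul hL hm.ne', e]
  unfold Defect
  constructor
  · rintro ⟨n', h3, h4⟩
    have : n' = n := by
      rw [hn1] at h3
      exact_mod_cast h3.symm
    subst this
    exact ⟨m, hm1, by omega⟩
  · rintro ⟨m', h3, h4⟩
    have : m' = m := by
      rw [hm1] at h3
      exact_mod_cast h3.symm
    subst this
    exact ⟨n, hn1, by omega⟩

theorem CFD_mul {Γ : Type} [Group Γ] (a b : Γ) (ψ : Γ → ℂ) :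
    funMap (MulAut.conj a) (funMap (MulAut.conj b) ψ) = funMap (MulAut.conj (a * b)) ψ := by
  funext g
  simp [funMap, mul_assoc]

theorem CFD_one {Γ : Type} [Group Γ] (ψ : Γ → ℂ) : funMap (MulAut.conj (1 : Γ)) ψ = ψ := by
  funext g
  simp [funMap]

/-- the set of conjugates of a conjugate -/
theorem CFD_co {Γ : Type} [Group Γ] (L : Subgroup Γ) (ψ : Γ → ℂ) (n : Γ) (hn : n ∈ L) :
    {θ : Γ → ℂ | ∃ a ∈ L, θ = funMap (MulAut.conj a) (funMap (MulAut.conj n) ψ)} =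
      {θ : Γ → ℂ | ∃ a ∈ L, θ = funMap (MulAut.conj a) ψ} := by
  ext θ
  constructor
  · rintro ⟨a, ha, rfl⟩
    exact ⟨a * n, L.mul_mem ha hn, CFD_mul a n ψ⟩
  · rintro ⟨a, ha, rfl⟩
    refine ⟨a * n⁻¹, L.mul_mem ha (L.inv_mem hn), ?_⟩
    rw [CFD_mul, inv_mul_cancel_right]

theorem CFD (hB2 : Pool.Agent.DI.B2_stmt) (hCCJ : CCJ_stmt) (hCFA : CFA_stmt) (hCFB : CFB_stmt)
    (hCFC : CFC_stmt) (hCFI : CFI_stmt) : CFD_stmt := by
  classical
  intro Γ _ _ p _ K L M hKL hLM hMK hML R hR D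
  have hLK : L ≤ nz K := hLM.trans hMK
  have hS : ∀ ψ : Γ → ℂ, stF M ψ ⊓ L = stF L ψ := fun ψ => (hCFC Γ K L M hKL hLM hMK hML ψ).1
  -- the sets
  set X : Set (Γ → ℂ) := {φ : Γ → ℂ | φ ∈ IrrOn L ∧
      (∀ m ∈ M, funMap (MulAut.conj m) φ = φ) ∧ Defect p L φ D ∧ R φ} with hXdef
  have hXf : X.Finite := (hB2 Γ L).1.subset fun φ hφ => hφ.1
  have hYf : (IrrOn K).Finite := (hB2 Γ K).1
  have hcardX : Nat.card {φ : Γ → ℂ // φ ∈ IrrOn L ∧
      (∀ m ∈ M, funMap (MulAut.conj m) φ = φ) ∧ Defect p L φ D ∧ R φ} = hXf.toFinset.card := by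
    rw [← Set.ncard_eq_toFinset_card X hXf]
    rfl
  -- the relation
  set Rl : (Γ → ℂ) → (Γ → ℂ) → Prop := fun φ ψ => ∃ e : ℕ, 0 < e ∧ OverE K L φ ψ e with hRl
  -- first count
  have c1 : ∀ φ ∈ hXf.toFinset,
      ∑ ψ ∈ hYf.toFinset, (if Rl φ ψ then Nat.card (stF L ψ) else 0) = Nat.card L := by
    intro φ hφ
    have hφX : φ ∈ X := hXf.mem_toFinset.1 hφ
    obtain ⟨ψ0, hψ0, e0, he0, ho⟩ := (hCFA Γ K L hKL hLK).1 φ hφX.1
    have hset : ((hYf.toFinset.filter fun ψ => Rl φ ψ : Finset (Γ → ℂ)) : Set (Γ → ℂ)) =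
        {θ : Γ → ℂ | ∃ n ∈ L, θ = funMap (MulAut.conj n) ψ0} := by
      ext ψ
      rw [Finset.mem_coe, Finset.mem_filter, Set.Finite.mem_toFinset]
      constructor
      · rintro ⟨h1, e, he, ho'⟩
        exact ((hCFA Γ K L hKL hLK).2 φ ψ0 hψ0 ψ h1 e0 e he0 he ho ho').2
      · rintro ⟨n, hn, rfl⟩
        refine ⟨((hCCJ Γ K L hLK ψ0 hψ0).1 n hn).1, e0, he0, ?_⟩
        intro x hx
        rw [CFD_co L ψ0 n hn]
        exact ho x hx
    rw [← Finset.sum_filter]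
    have hconst : ∀ ψ ∈ hYf.toFinset.filter fun ψ => Rl φ ψ,
        Nat.card (stF L ψ) = Nat.card (stF L ψ0) := by
      intro ψ hψ
      have h1 : ψ ∈ {θ : Γ → ℂ | ∃ n ∈ L, θ = funMap (MulAut.conj n) ψ0} := by
        rw [← hset]
        exact hψ
      obtain ⟨n, hn, rfl⟩ := h1
      have h2 := (hCCJ Γ K L hLK ψ0 hψ0).2.2.1
      have h3 := (hCCJ Γ K L hLK _ ((hCCJ Γ K L hLK ψ0 hψ0).1 n hn).1).2.2.1
      have h4 : Nat.card {θ : Γ → ℂ // ∃ a ∈ L,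
            θ = funMap (MulAut.conj a) (funMap (MulAut.conj n) ψ0)} =
          Nat.card {θ : Γ → ℂ // ∃ a ∈ L, θ = funMap (MulAut.conj a) ψ0} := by
        have := congrArg Set.ncard (CFD_co L ψ0 n hn)
        exact this
      rw [h4] at h3
      have h5 : Nat.card {θ : Γ → ℂ // ∃ a ∈ L, θ = funMap (MulAut.conj a) ψ0} ≠ 0 := by
        intro h0
        rw [h0, zero_mul] at h2
        exact Nat.card_pos.ne' h2.symm
      exact Nat.eq_of_mul_eq_mul_left (Nat.pos_of_ne_zero h5) (h3.trans h2.symm)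
    rw [Finset.sum_congr rfl hconst, Finset.sum_const, smul_eq_mul]
    rw [← (hCCJ Γ K L hLK ψ0 hψ0).2.2.1]
    congr 1
    rw [← Set.ncard_coe_finset, hset]
    rfl
  -- second count
  have c2 : ∀ ψ ∈ hYf.toFinset,
      ∑ φ ∈ hXf.toFinset, (if Rl φ ψ then Nat.card (stF L ψ) else 0) =
        if R ψ ∧ stF M ψ ⊔ L = M then
          Nat.card (stF L ψ) * inn p (stF L ψ) (stF M ψ) K ψ D else 0 := by
    intro ψ hψ
    have hψK : ψ ∈ IrrOn K := hYf.mem_toFinset.1 hψ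
    rw [← Finset.sum_filter, Finset.sum_const, smul_eq_mul]
    by_cases hc : R ψ ∧ stF M ψ ⊔ L = M
    · rw [if_pos hc, mul_comm]
      congr 1
      obtain ⟨b1, b2, b3⟩ := hCFB Γ K L hKL hLK ψ hψK
      have hne : ∀ φ₀ ∈ IrrOn (stF L ψ), ∀ e : ℕ, (∀ x ∈ K, φ₀ x = e * ψ x) → 0 < e := by
        intro φ₀ h0 e he
        rcases Nat.eq_zero_or_pos e with h | h
        · exfalso
          obtain ⟨n, hn, hn1, -⟩ := ((hB2 Γ (stF L ψ)).2 φ₀ h0).1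
          have := he 1 K.one_mem
          rw [h, Nat.cast_zero, zero_mul, hn1] at this
          exact hn.ne' (by exact_mod_cast this)
        · exact h
      have hset : ((hXf.toFinset.filter fun φ => Rl φ ψ : Finset (Γ → ℂ)) : Set (Γ → ℂ)) =
          indf L (stF L ψ) '' {φ : Γ → ℂ | φ ∈ IrrOn (stF L ψ) ∧ (∃ e : ℕ, ∀ x ∈ K, φ x = e * ψ x) ∧
            (∀ s ∈ stF M ψ, funMap (MulAut.conj s) φ = φ) ∧ Defect p (stF L ψ) φ D} := by
        ext φ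
        rw [Finset.mem_coe, Finset.mem_filter, Set.Finite.mem_toFinset]
        constructor
        · rintro ⟨⟨h1, h2, h3, h4⟩, e, he, ho⟩
          obtain ⟨φ₀, f1, f2, f3⟩ := b3 φ h1 e he ho
          have f4 := (hCFI Γ K L M hKL hLM hMK hML ψ hψK φ₀ f1 e he f2).1 (by rw [f3]; exact h2)
          refine ⟨φ₀, ⟨f1, ⟨e, f2⟩, f4.2, ?_⟩, f3⟩
          obtain ⟨g1, g2, g3⟩ := b1 φ₀ f1 e f2
          rw [f3] at g3
          exact (CFD_def p L (stF L ψ) φ φ₀ g3 ((hB2 Γ L).2 φ h1).1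
            ((hB2 Γ (stF L ψ)).2 φ₀ f1).1 D).1 h3
        · rintro ⟨φ₀, ⟨f1, ⟨e, f2⟩, f3, f4⟩, rfl⟩
          have he := hne φ₀ f1 e f2
          obtain ⟨g1, g2, g3⟩ := b1 φ₀ f1 e f2
          refine ⟨⟨g1, ?_, ?_, ?_⟩, e, he, g2⟩
          · exact (hCFI Γ K L M hKL hLM hMK hML ψ hψK φ₀ f1 e he f2).2 ⟨hc.2, f3⟩
          · exact (CFD_def p L (stF L ψ) _ φ₀ g3 ((hB2 Γ L).2 _ g1).1
              ((hB2 Γ (stF L ψ)).2 φ₀ f1).1 D).2 f4
          · exact (hR _ g1 ψ hψK e he g2).2 hc.1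
      have hinj : Set.InjOn (indf L (stF L ψ)) {φ : Γ → ℂ | φ ∈ IrrOn (stF L ψ) ∧
            (∃ e : ℕ, ∀ x ∈ K, φ x = e * ψ x) ∧
            (∀ s ∈ stF M ψ, funMap (MulAut.conj s) φ = φ) ∧ Defect p (stF L ψ) φ D} := by
        rintro φ₀ ⟨f1, ⟨e, f2⟩, -, -⟩ φ₁ ⟨g1, ⟨e', g2⟩, -, -⟩ h
        exact b2 φ₀ f1 φ₁ g1 e e' f2 g2 h
      rw [← Set.ncard_coe_finset, hset, Set.InjOn.ncard_image hinj]
      rfl
    · rw [if_neg hc]
      have hempty : (hXf.toFinset.filter fun φ => Rl φ ψ) = ∅ := by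
        rw [Finset.filter_eq_empty_iff]
        intro φ hφ hr
        obtain ⟨e, he, ho⟩ := hr
        obtain ⟨h1, h2, h3, h4⟩ := hXf.mem_toFinset.1 hφ
        obtain ⟨b1, b2, b3⟩ := hCFB Γ K L hKL hLK ψ hψK
        obtain ⟨φ₀, f1, f2, f3⟩ := b3 φ h1 e he ho
        have f4 := (hCFI Γ K L M hKL hLM hMK hML ψ hψK φ₀ f1 e he f2).1 (by rw [f3]; exact h2)
        exact hc ⟨(hR φ h1 ψ hψK e he ho).1 h4, f4.1⟩
      rw [hempty, Finset.card_empty, zero_mul]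
  -- assembly
  have hsum : Nat.card L * hXf.toFinset.card = ∑ ψ ∈ hYf.toFinset,
      if R ψ ∧ stF M ψ ⊔ L = M then
        Nat.card (stF L ψ) * inn p (stF L ψ) (stF M ψ) K ψ D else 0 := by
    rw [← Finset.sum_congr rfl c2, Finset.sum_comm, Finset.sum_congr rfl c1, Finset.sum_const,
      smul_eq_mul, mul_comm]
  have hZf : {ψ : Γ → ℂ | ψ ∈ IrrOn K ∧ R ψ ∧ stF M ψ ⊔ L = M}.Finite :=
    hYf.subset fun ψ hψ => hψ.1
  rw [hcardX, finsum_mem_eq_finite_toFinset_sum _ hZf]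
  have hZ : hZf.toFinset = hYf.toFinset.filter fun ψ => R ψ ∧ stF M ψ ⊔ L = M := by
    ext ψ
    rw [Finset.mem_filter, Set.Finite.mem_toFinset, Set.Finite.mem_toFinset]
    rfl
  rw [hZ, Finset.sum_filter]
  have hsum' : ((Nat.card L * hXf.toFinset.card : ℕ) : ℤ) = ∑ ψ ∈ hYf.toFinset,
      if R ψ ∧ stF M ψ ⊔ L = M then
        (Nat.card (stF M ψ ⊓ L : Subgroup Γ) : ℤ) * inn p (stF M ψ ⊓ L) (stF M ψ) K ψ D
        else 0 := by
    rw [hsum, Nat.cast_sum]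
    refine Finset.sum_congr rfl fun ψ _ => ?_
    rw [hS ψ]
    split_ifs
    · rw [Nat.cast_mul]
    · rfl
  rw [← hsum', Nat.cast_mul]

end Pool.Agent.DR
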